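import Mathlib
import Pool.Agent.H29.WeakAtom

set_option autoImplicit false

namespace Pool.Agent.Results.MP_e59eee_co.Counter

open Pool.Agent.H29.WeakAtom

theorem result : ∃ (P : Type) (_ : PartialOrder P), Algebraic P ∧
    ∃ x y : P, x < y ∧ ¬ ∃ u v : P, x ≤ u ∧ u ⋖ v ∧ v ≤ y :=
  ⟨Order.Ideal Q, inferInstance, alg, I 0, I 1, main.1,
    fun ⟨u, v, h1, h2, _⟩ => main.2 u v h1 h2⟩

end Pool.Agent.Results.MP_e59eee_co.Counter
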